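import Pool.Agent.H104.ML.Stm

set_option autoImplicit false

open Polynomial Finset

namespace Pool.Agent.H104.ML

lemma wt_nonneg (x : ℕ × ℕ) : 0 ≤ (x.1.totient : ℝ) * Real.log ((x.2 / x.1 : ℕ) : ℝ) /
      ((x.1 : ℝ) ^ 2 * ((x.2 / x.1 : ℕ) : ℝ)) := by
  apply div_nonneg
  · exact mul_nonneg (Nat.cast_nonneg _) (Real.log_natCast_nonneg _)
  · positivity

lemma mem_SS {m J b : ℕ} (h : b ∈ SS m J) : 1 ≤ b ∧ b ≤ m ∧ Squarefree b ∧ lv m b < J := by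
  unfold SS at h
  rw [Finset.mem_filter, Finset.mem_Icc] at h
  exact ⟨h.1.1, h.1.2, h.2.1, h.2.2⟩

lemma mem_edges {S : Finset ℕ} {x : ℕ × ℕ} (h : x ∈ edges S) :
    x.1 ∈ S ∧ x.2 ∈ S ∧ x.1 ∣ x.2 ∧ (x.2 / x.1).Prime := by
  unfold edges at h
  rw [Finset.mem_filter, Finset.mem_product] at h
  exact ⟨h.1.1, h.1.2, h.2.1, h.2.2⟩

theorem t_EDG (h1 : S_FLO) (h2 : S_EDA) (h3 : S_EDB) : S_EDG := by
  obtain ⟨C2, hC2, h2⟩ := h2
  obtain ⟨C3, hC3, h3⟩ := h3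
  refine ⟨2 * C3 + 2 * C2, by positivity, ?_⟩
  intro m J hJ hm
  have hE2 := h2 m J hJ hm
  have hE3 := h3 m J hJ hm
  have hJr : (1 : ℝ) ≤ J := by exact_mod_cast hJ
  have hlog : 0 ≤ Real.log m := Real.log_natCast_nonneg _
  calc ∑ x ∈ edges (SS m J), (x.1.totient : ℝ) * Real.log ((x.2 / x.1 : ℕ) : ℝ) /
      ((x.1 : ℝ) ^ 2 * ((x.2 / x.1 : ℕ) : ℝ)) * ((x.1 * mu m J x.1 : ℝ) - (x.2 * mu m J x.2 : ℝ)) ^ 2
      ≤ ∑ x ∈ edges (SS m J), (2 * (m : ℝ) ^ 2 * ((x.1.totient : ℝ) * Real.log ((x.2 / x.1 : ℕ) : ℝ) /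
      ((x.1 : ℝ) ^ 2 * ((x.2 / x.1 : ℕ) : ℝ)) * (ww m J x.1 - ww m J x.2) ^ 2) +
        2 * ((x.1.totient : ℝ) * Real.log ((x.2 / x.1 : ℕ) : ℝ) /
      ((x.1 : ℝ) ^ 2 * ((x.2 / x.1 : ℕ) : ℝ)) * (x.2 : ℝ) ^ 2)) := by
        apply Finset.sum_le_sum
        intro x hx
        obtain ⟨hx1, hx2, hx3, hx4⟩ := mem_edges hx
        obtain ⟨hb1, hb2, hb3, hb4⟩ := mem_SS hx1
        obtain ⟨hc1, hc2, hc3, hc4⟩ := mem_SS hx2
        obtain ⟨⟨f1, f2⟩, -⟩ := h1 m J x.1 hJ hb1 hb4.le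
        obtain ⟨⟨g1, g2⟩, -⟩ := h1 m J x.2 hJ hc1 hc4.le
        have hbc : (x.1 : ℝ) ≤ x.2 := by exact_mod_cast Nat.le_of_dvd (by omega) hx3
        have hb0 : (0 : ℝ) ≤ x.1 := Nat.cast_nonneg _
        have key : ((x.1 * mu m J x.1 : ℝ) - (x.2 * mu m J x.2 : ℝ)) ^ 2 ≤
            2 * (m : ℝ) ^ 2 * (ww m J x.1 - ww m J x.2) ^ 2 + 2 * (x.2 : ℝ) ^ 2 := by
          obtain ⟨e, he⟩ : ∃ e : ℝ, (x.1 * mu m J x.1 : ℝ) - (x.2 * mu m J x.2 : ℝ) =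
            m * (ww m J x.1 - ww m J x.2) + e :=
            ⟨(x.1 * mu m J x.1 : ℝ) - (x.2 * mu m J x.2 : ℝ) - m * (ww m J x.1 - ww m J x.2), by ring⟩
          have he1 : -(x.2 : ℝ) ≤ e := by nlinarith
          have he2 : e ≤ (x.2 : ℝ) := by nlinarith
          have he3 : e ^ 2 ≤ (x.2 : ℝ) ^ 2 := by nlinarith
          rw [he]
          nlinarith [sq_nonneg (m * (ww m J x.1 - ww m J x.2) - e)]
        have hw := wt_nonneg x
        calc _ ≤ (x.1.totient : ℝ) * Real.log ((x.2 / x.1 : ℕ) : ℝ) /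
            ((x.1 : ℝ) ^ 2 * ((x.2 / x.1 : ℕ) : ℝ)) * (2 * (m : ℝ) ^ 2 * (ww m J x.1 - ww m J x.2) ^ 2 +
              2 * (x.2 : ℝ) ^ 2) := mul_le_mul_of_nonneg_left key hw
          _ = _ := by ring
    _ = 2 * (m : ℝ) ^ 2 * ∑ x ∈ edges (SS m J), ((x.1.totient : ℝ) * Real.log ((x.2 / x.1 : ℕ) : ℝ) /
      ((x.1 : ℝ) ^ 2 * ((x.2 / x.1 : ℕ) : ℝ)) * (ww m J x.1 - ww m J x.2) ^ 2) +
        2 * ∑ x ∈ edges (SS m J), ((x.1.totient : ℝ) * Real.log ((x.2 / x.1 : ℕ) : ℝ) /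
      ((x.1 : ℝ) ^ 2 * ((x.2 / x.1 : ℕ) : ℝ)) * (x.2 : ℝ) ^ 2) := by
        rw [Finset.sum_add_distrib, Finset.mul_sum, Finset.mul_sum]
    _ ≤ 2 * (m : ℝ) ^ 2 * (C3 * (Real.log m / J + 2 ^ J * J)) + 2 * (C2 * (m : ℝ) ^ 2 * 2 ^ J) := by
        gcongr
    _ ≤ _ := by
        have h5 : (2 : ℝ) ^ J ≤ 2 ^ J * J := le_mul_of_one_le_right (by positivity) hJr
        have h6 : 0 ≤ Real.log m / J := by positivity
        have h7 : C2 * (m : ℝ) ^ 2 * 2 ^ J ≤ C2 * (m : ℝ) ^ 2 * (Real.log m / J + 2 ^ J * J) :=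
          mul_le_mul_of_nonneg_left (by linarith) (by positivity)
        nlinarith

theorem t_DG (h1 : S_FLO) (h2 : S_DGA) (h3 : S_DGB) : S_DG := by
  obtain ⟨C2, hC2, h2⟩ := h2
  obtain ⟨C3, hC3, h3⟩ := h3
  refine ⟨C3 * (3 + C2), by positivity, ?_⟩
  intro m J n hJ hm hn
  have hE3 := h3 m J hJ hm
  have hJr : (1 : ℝ) ≤ J := by exact_mod_cast hJ
  have hlog : 0 ≤ Real.log m := Real.log_natCast_nonneg _
  have hm1 : 1 ≤ m := by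
    rcases Nat.eq_zero_or_pos m with h | h
    · rw [h] at hm
      simp at hm
      have : (0 : ℝ) < 4 ^ J := by positivity
      linarith
    · exact h
  have hmr : (1 : ℝ) ≤ m := by exact_mod_cast hm1
  have hn' : ((m : ℝ) ^ 2) ≤ n := by exact_mod_cast hn
  have hq : 0 ≤ Real.log (n / (m : ℝ) ^ 2) := by
    apply Real.log_nonneg
    rw [le_div_iff₀ (by positivity)]
    linarith
  set U : ℝ := Real.log (n / (m : ℝ) ^ 2) + Real.log m / 2 ^ (J - 1) + C2 * J with hU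
  have hU0 : 0 ≤ U := by positivity
  have hterm : ∀ b ∈ SS m J, (b.totient : ℝ) * (mu m J b : ℝ) ^ 2 * (Real.log n - Real.log (mu m J b) + 5 -
      2 * Real.log b - ∑ x ∈ (edges (SS m J)).filter (fun x => x.1 = b),
        Real.log ((x.2 / x.1 : ℕ) : ℝ) / ((x.2 / x.1 : ℕ) : ℝ)) ≤
      ((b.totient : ℝ) / (b : ℝ) ^ 2 * ww m J b ^ 2) * ((m : ℝ) ^ 2 * U) := by
    intro b hb
    obtain ⟨hb1, hb2, hb3, hb4⟩ := mem_SS hb
    have hbr : (0 : ℝ) < b := by exact_mod_cast hb1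
    obtain ⟨⟨f1, f2⟩, -⟩ := h1 m J b hJ hb1 hb4.le
    rcases Nat.eq_zero_or_pos (mu m J b) with h0 | h0
    · rw [h0]
      simp only [Nat.cast_zero, ne_eq, OfNat.ofNat_ne_zero, not_false_eq_true, zero_pow, mul_zero,
        zero_mul]
      positivity
    · have hbr2 := h2 m J n b hJ hm hn hb h0
      rw [← hU] at hbr2
      have hmu : (mu m J b : ℝ) ≤ m * ww m J b / b := by
        rw [le_div_iff₀ hbr]
        linarith
      have hmu0 : (0 : ℝ) ≤ mu m J b := Nat.cast_nonneg _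
      calc _ ≤ (b.totient : ℝ) * (mu m J b : ℝ) ^ 2 * U :=
            mul_le_mul_of_nonneg_left hbr2 (by positivity)
        _ ≤ (b.totient : ℝ) * (m * ww m J b / b) ^ 2 * U := by
            gcongr
        _ = _ := by
            field_simp
  refine (Finset.sum_le_sum hterm).trans ?_
  rw [← Finset.sum_mul]
  refine (mul_le_mul_of_nonneg_right hE3 (by positivity)).trans ?_
  have hJ2 : (2 : ℝ) ^ J = 2 * 2 ^ (J - 1) := by
    rw [← pow_succ']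
    congr 1
    omega
  have e1 : C3 * 2 ^ J / (J : ℝ) ^ 2 * ((m : ℝ) ^ 2 * U) =
      C3 * (m : ℝ) ^ 2 * (2 ^ J / (J : ℝ) ^ 2 * U) := by ring
  have e2 : C3 * (3 + C2) * (m : ℝ) ^ 2 * (Real.log m / J + 2 ^ J * (J + Real.log (n / (m : ℝ) ^ 2))) =
    C3 * (m : ℝ) ^ 2 * ((3 + C2) * (Real.log m / J + 2 ^ J * (J + Real.log (n / (m : ℝ) ^ 2)))) := by ring
  rw [e1, e2]
  apply mul_le_mul_of_nonneg_left _ (by positivity)
  have hJJ : (J : ℝ) ≤ (J : ℝ) ^ 2 := by nlinarith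
  have p1 : (2 : ℝ) ^ J / (J : ℝ) ^ 2 * (Real.log m / 2 ^ (J - 1)) ≤ 2 * (Real.log m / J) := by
    rw [hJ2]
    have : (2 : ℝ) * 2 ^ (J - 1) / (J : ℝ) ^ 2 * (Real.log m / 2 ^ (J - 1)) = 2 * (Real.log m / (J : ℝ) ^ 2) := by
      field_simp
    rw [this]
    gcongr
  have p2 : (2 : ℝ) ^ J / (J : ℝ) ^ 2 ≤ 2 ^ J := by
    apply div_le_self (by positivity)
    nlinarith
  have p3 : (2 : ℝ) ^ J / (J : ℝ) ^ 2 * Real.log (n / (m : ℝ) ^ 2) ≤ 2 ^ J * Real.log (n / (m : ℝ) ^ 2) := by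
    gcongr
  have p4 : (2 : ℝ) ^ J / (J : ℝ) ^ 2 * (C2 * J) ≤ C2 * (2 ^ J * J) := by
    calc _ ≤ (2 : ℝ) ^ J * (C2 * J) := mul_le_mul_of_nonneg_right p2 (by positivity)
      _ = _ := by ring
  have q1 : 0 ≤ Real.log m / J := by positivity
  have q2 : 0 ≤ (2 : ℝ) ^ J * J := by positivity
  have q3 : 0 ≤ (2 : ℝ) ^ J * Real.log (n / (m : ℝ) ^ 2) := by positivity
  rw [hU]
  nlinarith [mul_nonneg hC2 q1, mul_nonneg hC2 q2, mul_nonneg hC2 q3]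

theorem t_EST (h1 : S_ID) (h2 : S_EDG) (h3 : S_DG) (h4 : S_SSD) : S_EST := by
  obtain ⟨C2, hC2, h2⟩ := h2
  obtain ⟨C3, hC3, h3⟩ := h3
  refine ⟨C2 + C3, by positivity, ?_⟩
  intro m J n hJ hm hn
  obtain ⟨s1, s2, -, -⟩ := h4 m J hJ
  rw [h1 (SS m J) (mu m J) n s1 s2]
  have e2 := h2 m J hJ hm
  have e3 := h3 m J n hJ hm hn
  have hm1 : 1 ≤ m := by
    rcases Nat.eq_zero_or_pos m with h | h
    · rw [h] at hm
      simp at hm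
      have : (0 : ℝ) < 4 ^ J := by positivity
      linarith
    · exact h
  have hmr : (1 : ℝ) ≤ m := by exact_mod_cast hm1
  have hn' : ((m : ℝ) ^ 2) ≤ n := by exact_mod_cast hn
  have hq : 0 ≤ Real.log (n / (m : ℝ) ^ 2) := by
    apply Real.log_nonneg
    rw [le_div_iff₀ (by positivity)]
    linarith
  have q3 : 0 ≤ (2 : ℝ) ^ J * Real.log (n / (m : ℝ) ^ 2) := by positivity
  have e4 : C2 * (m : ℝ) ^ 2 * (Real.log m / J + 2 ^ J * J) ≤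
      C2 * (m : ℝ) ^ 2 * (Real.log m / J + 2 ^ J * (J + Real.log (n / (m : ℝ) ^ 2))) := by
    apply mul_le_mul_of_nonneg_left _ (by positivity)
    linarith
  linarith

end Pool.Agent.H104.ML
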