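import Pool.Agent.H104.ML.Stm

set_option autoImplicit false

open Polynomial Finset Filter

namespace Pool.Agent.H104.ML

lemma asy (κ : ℝ) (hκ : 0 < κ) : ∀ᶠ l : ℝ in atTop, 16 ≤ l ∧
    4 * Real.exp l ≤ κ * l * Real.exp (Real.exp l / 2) ∧ Real.exp (l / 4) ≤ Real.exp l / 4 ∧
    4 * Real.exp l ≤ κ * l * Real.exp l ^ 2 ∧ 30000 * κ * l ≤ Real.exp l ∧
    3 * l ^ 2 ≤ Real.exp (3 * l / 4) := by
  have t1 : Tendsto (fun x : ℝ => Real.exp x) atTop atTop := Real.tendsto_exp_atTop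
  have t2 : Tendsto (fun x : ℝ => Real.exp x / x ^ 1) atTop atTop := Real.tendsto_exp_div_pow_atTop 1
  have t3 : Tendsto (fun x : ℝ => Real.exp x / x ^ 2) atTop atTop := Real.tendsto_exp_div_pow_atTop 2
  have e1 := t2.eventually_ge_atTop (30000 * κ)
  have e2 : ∀ᶠ l : ℝ in atTop, 3 * (4 / 3) ^ 2 ≤ Real.exp (3 * l / 4) / (3 * l / 4) ^ 2 := by
    have : Tendsto (fun l : ℝ => 3 * l / 4) atTop atTop := by
      have : (fun l : ℝ => 3 * l / 4) = fun l => (3 / 4) * l := by ext l; ring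
      rw [this]
      exact tendsto_id.const_mul_atTop (by norm_num)
    exact (t3.comp this).eventually_ge_atTop _
  have e3 : ∀ᶠ l : ℝ in atTop, 8 / κ ≤ Real.exp (Real.exp l / 2) / (Real.exp l / 2) ^ 1 := by
    have : Tendsto (fun l : ℝ => Real.exp l / 2) atTop atTop := t1.atTop_div_const (by norm_num)
    exact (t2.comp this).eventually_ge_atTop _
  have e4 := t1.eventually_ge_atTop (4 / κ)
  filter_upwards [eventually_ge_atTop 16, e1, e2, e3, e4] with l hl h1 h2 h3 h4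
  have hl0 : 0 < l := by linarith
  have hE := Real.exp_pos l
  refine ⟨hl, ?_, ?_, ?_, ?_, ?_⟩
  · rw [pow_one, le_div_iff₀ (by positivity)] at h3
    have h5 : 8 / κ * (Real.exp l / 2) = 4 * Real.exp l / κ := by field_simp; ring
    rw [h5, div_le_iff₀ hκ] at h3
    have h6 := Real.exp_pos (Real.exp l / 2)
    nlinarith [mul_pos hκ h6]
  · have h5 : Real.exp l = Real.exp (l / 4) * Real.exp (3 * l / 4) := by
      rw [← Real.exp_add]; congr 1; ring
    have h6 : 4 ≤ Real.exp (3 * l / 4) := by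
      have := Real.add_one_le_exp (3 * l / 4)
      linarith
    have h7 := Real.exp_pos (l / 4)
    rw [h5]
    nlinarith
  · rw [div_le_iff₀ hκ] at h4
    have h5 : κ * l * Real.exp l ^ 2 = (Real.exp l * κ) * (l * Real.exp l) := by ring
    rw [h5]
    have h6 : Real.exp l ≤ l * Real.exp l := by nlinarith
    calc 4 * Real.exp l ≤ (Real.exp l * κ) * Real.exp l := by nlinarith
      _ ≤ _ := by gcongr
  · rw [pow_one, le_div_iff₀ hl0] at h1
    exact h1
  · rw [le_div_iff₀ (by positivity)] at h2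
    calc 3 * l ^ 2 = 3 * (4 / 3) ^ 2 * (3 * l / 4) ^ 2 := by ring
      _ ≤ _ := h2

theorem fin (h1 : S_CORE2) (h2 : S_EST) (h3 : S_SSD) : ∃ c : ℝ, 0 < c ∧ ∀ᶠ n : ℕ in atTop,
    ∃ p : ℤ[X], p ≠ 0 ∧ Tern p ∧ p.natDegree < n ∧
      c * Real.sqrt (n * Real.log (Real.log n) / Real.log n) ≤ (p.rootMultiplicity 1 : ℝ) := by
  obtain ⟨C0, hC0, h2⟩ := h2
  obtain ⟨κ, hκdef⟩ : ∃ κ : ℝ, κ = 1 / (50 * (C0 + 1)) := ⟨_, rfl⟩
  have hκ : 0 < κ := by rw [hκdef]; positivity
  have hCκ : C0 * κ ≤ 1 / 50 := by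
    rw [hκdef, mul_one_div, div_le_div_iff₀ (by positivity) (by norm_num)]
    linarith
  refine ⟨Real.sqrt κ / 2, by positivity, ?_⟩
  have hl : Tendsto (fun n : ℕ => Real.log (n : ℝ)) atTop atTop :=
    Real.tendsto_log_atTop.comp tendsto_natCast_atTop_atTop
  have hll : Tendsto (fun n : ℕ => Real.log (Real.log (n : ℝ))) atTop atTop :=
    Real.tendsto_log_atTop.comp hl
  filter_upwards [hll.eventually (asy κ hκ), hl.eventually_gt_atTop 0, eventually_ge_atTop 1]
    with n hasy hu hn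
  obtain ⟨u, hudef⟩ : ∃ u : ℝ, u = Real.log n := ⟨_, rfl⟩
  obtain ⟨l, hldef⟩ : ∃ l : ℝ, l = Real.log u := ⟨_, rfl⟩
  rw [← hudef] at hasy hu ⊢
  rw [← hldef] at hasy ⊢
  have hul : Real.exp l = u := by rw [hldef, Real.exp_log hu]
  have hnr : (1 : ℝ) ≤ n := by exact_mod_cast hn
  have hnu : Real.exp u = n := by rw [hudef, Real.exp_log (by linarith)]
  rw [hul] at hasy
  obtain ⟨a1, a2, a3, a4, a5, a6⟩ := hasy
  have hl0 : 0 < l := by linarith
  obtain ⟨y, hy⟩ : ∃ y : ℝ, y = κ * (n * l / u) := ⟨_, rfl⟩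
  have hy0 : 0 ≤ y := by rw [hy]; positivity
  have hEu : Real.exp (u / 2) * Real.exp (u / 2) = n := by
    rw [← Real.exp_add, ← hnu]; congr 1; ring
  have hEu0 := Real.exp_pos (u / 2)
  have hEu1 : 1 ≤ Real.exp (u / 2) := Real.one_le_exp (by positivity)
  have hy4 : 4 * Real.exp (u / 2) ≤ y := by
    rw [hy, ← mul_div_assoc, le_div_iff₀ hu, ← hEu]
    nlinarith
  obtain ⟨m, hm⟩ : ∃ m : ℕ, m = ⌊Real.sqrt y⌋₊ := ⟨_, rfl⟩
  have hsq : Real.sqrt y ^ 2 = y := Real.sq_sqrt hy0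
  have hs2 : 2 ≤ Real.sqrt y := by
    rw [show (2 : ℝ) = Real.sqrt 4 by rw [show (4 : ℝ) = 2 ^ 2 by norm_num]; rw [Real.sqrt_sq (by norm_num)]]
    exact Real.sqrt_le_sqrt (by linarith)
  have hmle : (m : ℝ) ≤ Real.sqrt y := by rw [hm]; exact Nat.floor_le (Real.sqrt_nonneg y)
  have hmge : Real.sqrt y / 2 ≤ m := by
    have := Nat.lt_floor_add_one (Real.sqrt y)
    rw [← hm] at this
    linarith
  have hm1 : (1 : ℝ) ≤ m := by linarith
  have hm1' : 1 ≤ m := by exact_mod_cast hm1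
  have hm2 : (m : ℝ) ^ 2 ≤ y := by rw [← hsq]; gcongr
  have hm3 : y / 4 ≤ (m : ℝ) ^ 2 := by nlinarith
  have hκl : κ * l ≤ u := by nlinarith [mul_pos hκ hl0]
  have hyn : y ≤ n := by
    rw [hy, ← mul_div_assoc, div_le_iff₀ hu]
    nlinarith
  have hmn : m ^ 2 ≤ n := by
    have : ((m : ℝ) ^ 2) ≤ n := hm2.trans hyn
    exact_mod_cast this
  have hlogm : u / 4 ≤ Real.log m := by
    have h5 : Real.exp (u / 2) ≤ (m : ℝ) ^ 2 := by linarith
    have h6 := Real.log_le_log hEu0 h5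
    rw [Real.log_exp, Real.log_pow] at h6
    push_cast at h6
    linarith
  have hlogm2 : Real.log m ≤ u / 2 := by
    have h5 : ((m : ℝ) ^ 2) ≤ n := hm2.trans hyn
    have h6 := Real.log_le_log (by positivity) h5
    rw [Real.log_pow, ← hudef] at h6
    push_cast at h6
    linarith
  obtain ⟨J, hJ⟩ : ∃ J : ℕ, J = ⌊l / 8⌋₊ := ⟨_, rfl⟩
  have hJle : (J : ℝ) ≤ l / 8 := by rw [hJ]; exact Nat.floor_le (by positivity)
  have hJge : l / 16 ≤ J := by
    have := Nat.lt_floor_add_one (l / 8)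
    rw [← hJ] at this
    linarith
  have hJ1 : 1 ≤ J := by
    have : (1 : ℝ) ≤ J := by linarith
    exact_mod_cast this
  have h4J : (4 : ℝ) ^ J ≤ Real.exp (l / 4) := by
    have h5 : (4 : ℝ) ^ J = Real.exp (J * Real.log 4) := by
      rw [mul_comm, Real.exp_mul, Real.exp_log (by norm_num), Real.rpow_natCast]
    rw [h5]
    apply Real.exp_le_exp.2
    have h6 : Real.log 4 ≤ 2 := by
      rw [show (4 : ℝ) = 2 ^ 2 by norm_num, Real.log_pow]
      have := Real.log_two_lt_d9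
      push_cast
      linarith
    have hJ0 : (0 : ℝ) ≤ J := Nat.cast_nonneg _
    nlinarith
  have h2J : (2 : ℝ) ^ J ≤ Real.exp (l / 4) := by
    refine le_trans ?_ h4J
    gcongr
    norm_num
  have h4Jm : (4 : ℝ) ^ J ≤ Real.log m := by linarith
  have hE := h2 m J n hJ1 h4Jm hmn
  obtain ⟨s1, -, s3, s4⟩ := h3 m J hJ1
  obtain ⟨s5, s6⟩ := s4 hm1'
  have hlq : Real.log (n / (m : ℝ) ^ 2) ≤ 2 * l := by
    have h5 : (n : ℝ) / (m : ℝ) ^ 2 ≤ u ^ 2 := by
      rw [div_le_iff₀ (by positivity)]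
      have h6 : (n : ℝ) * 1 ≤ u ^ 2 * (y / 4) := by
        rw [hy]
        have h7 : u ^ 2 * (κ * (n * l / u) / 4) = n * (κ * l * u ^ 2 / (4 * u)) := by
          field_simp
        rw [h7]
        gcongr
        rw [le_div_iff₀ (by positivity)]
        linarith
      calc (n : ℝ) = n * 1 := by ring
        _ ≤ u ^ 2 * (y / 4) := h6
        _ ≤ _ := by gcongr
    have h6 := Real.log_le_log (by positivity) h5
    rw [Real.log_pow, ← hldef] at h6
    push_cast at h6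
    exact h6
  have hlq0 : 0 ≤ Real.log (n / (m : ℝ) ^ 2) := by
    apply Real.log_nonneg
    rw [le_div_iff₀ (by positivity), one_mul]
    exact_mod_cast hmn
  have hEE : EEd (SS m J) (mu m J) n ≤ 4 / 5 * (n : ℝ) := by
    refine hE.trans ?_
    have b1 : Real.log m / J ≤ 8 * (u / l) := by
      rw [div_le_iff₀ (by linarith)]
      have h5 : 8 * (u / l) * J = (8 * J / l) * u := by ring
      rw [h5]
      have h6 : 1 / 2 ≤ 8 * J / l := by
        rw [le_div_iff₀ hl0]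
        linarith
      nlinarith
    have b2 : (2 : ℝ) ^ J * (J + Real.log (n / (m : ℝ) ^ 2)) ≤ u / l := by
      have h5 : (J : ℝ) + Real.log (n / (m : ℝ) ^ 2) ≤ 3 * l := by linarith
      have h6 : (2 : ℝ) ^ J * (J + Real.log (n / (m : ℝ) ^ 2)) ≤ Real.exp (l / 4) * (3 * l) := by
        gcongr
      refine h6.trans ?_
      rw [le_div_iff₀ hl0]
      have h7 : u = Real.exp (l / 4) * Real.exp (3 * l / 4) := by
        rw [← hul, ← Real.exp_add]; congr 1; ring
      rw [h7]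
      have h8 := Real.exp_pos (l / 4)
      nlinarith
    have b3 : 0 ≤ u / l := by positivity
    calc C0 * (m : ℝ) ^ 2 * (Real.log m / J + 2 ^ J * (J + Real.log (n / (m : ℝ) ^ 2)))
        ≤ C0 * y * (8 * (u / l) + u / l) := by gcongr
      _ = 9 * (C0 * κ) * n := by
          rw [hy]
          field_simp
          ring
      _ ≤ 9 * (1 / 50) * n := by gcongr
      _ ≤ _ := by linarith
  have hD : 30000 * ∑ b ∈ SS m J, b.totient * mu m J b ≤ n := by
    have h5 : ((30000 * m ^ 2 : ℕ) : ℝ) ≤ n := by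
      push_cast
      have h6 : 30000 * y ≤ n := by
        rw [hy]
        have h7 : 30000 * (κ * (n * l / u)) = n * (30000 * κ * l / u) := by ring
        rw [h7]
        have h8 : 30000 * κ * l / u ≤ 1 := by
          rw [div_le_one hu]
          exact a5
        nlinarith
      linarith
    have h6 : 30000 * m ^ 2 ≤ n := by exact_mod_cast h5
    omega
  obtain ⟨p, hp0, hpT, hpd, hpg⟩ := h1 (SS m J) (mu m J) n s1 hn hD hEE
  refine ⟨p, hp0, hpT, hpd, ?_⟩
  have hX : (X - C 1 : ℤ[X]) ^ m ∣ p := by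
    refine dvd_trans ?_ hpg
    have h5 : (cyclotomic 1 ℤ) ^ mu m J 1 ∣ gg (SS m J) (mu m J) := by
      unfold gg
      exact Finset.dvd_prod_of_mem (fun b => (cyclotomic b ℤ) ^ mu m J b) s5
    rw [s6, cyclotomic_one] at h5
    simpa using h5
  have hmult : m ≤ p.rootMultiplicity 1 := (le_rootMultiplicity_iff hp0).2 hX
  have h6 : Real.sqrt κ / 2 * Real.sqrt (n * l / u) = Real.sqrt y / 2 := by
    rw [hy, Real.sqrt_mul hκ.le]
    ring
  rw [h6]
  refine hmge.trans ?_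
  exact_mod_cast hmult

end Pool.Agent.H104.ML
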