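import Pool.Agent.H104.ML.Fin

set_option autoImplicit false

open Polynomial Filter

namespace Pool.Agent.H104.ML

/-- The polynomials of degree at most `n` with coefficients in `{-1, 0, 1}`. -/
def IsF (n : ℕ) (p : ℤ[X]) : Prop := p.natDegree ≤ n ∧ ∀ j, p.coeff j = -1 ∨ p.coeff j = 0 ∨ p.coeff j = 1

/-- The maximal order of vanishing at `1` of a nonzero polynomial of degree at most `n` with
coefficients in `{-1, 0, 1}`. -/
noncomputable def M (n : ℕ) : ℕ := sSup {k : ℕ | ∃ p : ℤ[X], p ≠ 0 ∧ IsF n p ∧ (X - 1 : ℤ[X]) ^ k ∣ p}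

lemma le_M {n k : ℕ} {p : ℤ[X]} (hp : p ≠ 0) (hF : IsF n p) (hk : (X - 1 : ℤ[X]) ^ k ∣ p) : k ≤ M n := by
  have hb : BddAbove {k : ℕ | ∃ p : ℤ[X], p ≠ 0 ∧ IsF n p ∧ (X - 1 : ℤ[X]) ^ k ∣ p} := by
    refine ⟨n, ?_⟩
    rintro j ⟨q, hq, hqF, hj⟩
    have h1 := natDegree_le_of_dvd hj hq
    rw [natDegree_pow] at h1
    have h2 : (X - 1 : ℤ[X]).natDegree = 1 := by
      have := natDegree_X_sub_C (1 : ℤ)
      simpa using this
    rw [h2, mul_one] at h1
    exact h1.trans hqF.1
  exact le_csSup hb ⟨p, hp, hF, hk⟩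

lemma one_le_M {n : ℕ} (hn : 1 ≤ n) : 1 ≤ M n := by
  have h2 : (X - 1 : ℤ[X]).natDegree = 1 := by
    have := natDegree_X_sub_C (1 : ℤ)
    simpa using this
  apply le_M (p := X - 1) _ _ (by simp)
  · intro h
    rw [h] at h2
    simp at h2
  · refine ⟨by rw [h2]; exact hn, ?_⟩
    intro j
    rw [coeff_sub, coeff_X, coeff_one]
    rcases j with _ | _ | j
    · simp
    · simp
    · simp

theorem res (h1 : S_CORE2) (h2 : S_EST) (h3 : S_SSD) :
    (∃ c : ℝ, 0 < c ∧ ∀ n : ℕ, 3 ≤ n →
      c * Real.sqrt (n * Real.log (Real.log n) / Real.log n) ≤ (M n : ℝ)) ∧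
    ¬ ∃ C : ℝ, ∀ᶠ n : ℕ in atTop, (M n : ℝ) ≤ C * Real.sqrt (n / Real.log (n + 1)) := by
  have key : ∃ c : ℝ, 0 < c ∧ ∀ n : ℕ, 3 ≤ n →
      c * Real.sqrt (n * Real.log (Real.log n) / Real.log n) ≤ (M n : ℝ) := by
    obtain ⟨c, hc, hev⟩ := fin h1 h2 h3
    obtain ⟨n0, hn0⟩ := eventually_atTop.1 hev
    -- a bound for the finitely many small n
    have hsmall : ∃ B : ℝ, 0 < B ∧ ∀ n < n0, Real.sqrt (n * Real.log (Real.log n) / Real.log n) ≤ B := by
      refine ⟨1 + ∑ n ∈ Finset.range n0, Real.sqrt (n * Real.log (Real.log n) / Real.log n), ?_, ?_⟩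
      · have : 0 ≤ ∑ n ∈ Finset.range n0, Real.sqrt (n * Real.log (Real.log n) / Real.log n) :=
          Finset.sum_nonneg (fun _ _ => Real.sqrt_nonneg _)
        linarith
      · intro n hn
        have := Finset.single_le_sum (f := fun n : ℕ => Real.sqrt (n * Real.log (Real.log n) / Real.log n))
          (fun _ _ => Real.sqrt_nonneg _) (Finset.mem_range.2 hn)
        have h' : Real.sqrt (n * Real.log (Real.log n) / Real.log n) ≤
          ∑ n ∈ Finset.range n0, Real.sqrt (n * Real.log (Real.log n) / Real.log n) := this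
        linarith
    obtain ⟨B, hB, hB2⟩ := hsmall
    refine ⟨min c (1 / B), lt_min hc (by positivity), ?_⟩
    intro n hn
    rcases lt_or_ge n n0 with h | h
    · calc min c (1 / B) * Real.sqrt (n * Real.log (Real.log n) / Real.log n)
          ≤ (1 / B) * B := by
            apply mul_le_mul (min_le_right _ _) (hB2 n h) (Real.sqrt_nonneg _) (by positivity)
        _ = 1 := by field_simp
        _ ≤ (M n : ℝ) := by exact_mod_cast one_le_M (by omega)
    · obtain ⟨p, hp0, hpT, hpd, hpm⟩ := hn0 n h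
      calc min c (1 / B) * Real.sqrt (n * Real.log (Real.log n) / Real.log n)
          ≤ c * Real.sqrt (n * Real.log (Real.log n) / Real.log n) :=
            mul_le_mul_of_nonneg_right (min_le_left _ _) (Real.sqrt_nonneg _)
        _ ≤ (p.rootMultiplicity 1 : ℝ) := hpm
        _ ≤ (M n : ℝ) := by
            have : p.rootMultiplicity 1 ≤ M n := by
              apply le_M hp0 ⟨hpd.le, ?_⟩
              · have := pow_rootMultiplicity_dvd p 1
                simpa using this
              · intro j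
                rcases hpT j with h | h | h
                · right; left; exact h
                · right; right; exact h
                · left; exact h
            exact_mod_cast this
  refine ⟨key, ?_⟩
  rintro ⟨C, hC⟩
  obtain ⟨c, hc, hall⟩ := key
  have hl : Tendsto (fun n : ℕ => Real.log (n : ℝ)) atTop atTop :=
    Real.tendsto_log_atTop.comp tendsto_natCast_atTop_atTop
  have hll : Tendsto (fun n : ℕ => Real.log (Real.log (n : ℝ))) atTop atTop :=
    Real.tendsto_log_atTop.comp hl
  obtain ⟨n, ⟨hn1, hn2⟩, hn3, hn4⟩ := ((hC.and (hll.eventually_gt_atTop ((C / c) ^ 2))).and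
    ((eventually_ge_atTop 3).and (hl.eventually_gt_atTop 0))).exists
  have h4 := (hall n hn3).trans hn1
  have hnr : (3 : ℝ) ≤ n := by exact_mod_cast hn3
  have hlog1 : Real.log n ≤ Real.log (n + 1) := Real.log_le_log (by linarith) (by linarith)
  have h5 : Real.sqrt (n / Real.log (n + 1)) ≤ Real.sqrt (n / Real.log n) := by
    apply Real.sqrt_le_sqrt
    gcongr
  have h6 : Real.sqrt (n * Real.log (Real.log n) / Real.log n) =
      Real.sqrt (Real.log (Real.log n)) * Real.sqrt (n / Real.log n) := by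
    rw [← Real.sqrt_mul (by nlinarith [sq_nonneg (C / c)])]
    congr 1
    ring
  have h7 : 0 < Real.sqrt (n / Real.log n) := Real.sqrt_pos.2 (by positivity)
  have hC0 : c * Real.sqrt (Real.log (Real.log n)) * Real.sqrt (n / Real.log n) ≤
      |C| * Real.sqrt (n / Real.log n) := by
    calc c * Real.sqrt (Real.log (Real.log n)) * Real.sqrt (n / Real.log n)
        = c * Real.sqrt (n * Real.log (Real.log n) / Real.log n) := by rw [h6]; ring
      _ ≤ C * Real.sqrt (n / Real.log (n + 1)) := h4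
      _ ≤ |C| * Real.sqrt (n / Real.log (n + 1)) :=
          mul_le_mul_of_nonneg_right (le_abs_self C) (Real.sqrt_nonneg _)
      _ ≤ _ := mul_le_mul_of_nonneg_left h5 (abs_nonneg C)
  have h8 : c * Real.sqrt (Real.log (Real.log n)) ≤ |C| := le_of_mul_le_mul_right hC0 h7
  have h9 : |C| / c < Real.sqrt (Real.log (Real.log n)) := by
    apply Real.lt_sqrt_of_sq_lt
    rw [div_pow, sq_abs, ← div_pow]
    exact hn2
  rw [div_lt_iff₀ hc] at h9
  linarith

end Pool.Agent.H104.ML
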