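import Mathlib

/-!
# High order zeros at 1 of {-1,0,1} polynomials: statements of the lemmas (project ML, helper104)

Rows MP_178164_nt, MP_72eb9b_nt, MP_ff76c9_an.  CLAIM: `M(n) ≥ c sqrt(n loglog n / log n)` for large `n`, where
`M(n)` is the maximal order of a zero at `1` of a nonzero polynomial of degree `≤ n` with coefficients
`-1, 0, 1`.  (Known: `c1 sqrt(n / log n) ≤ M(n) ≤ c2 sqrt n`.)

## Paper proof

(A) Pigeonhole with volumes.  Let `g` be monic of degree `D`, `A` the integer matrix of `x ↦ x mod g`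
(polynomials of degree `< n`).  If `x mod g` is injective on coefficient vectors `0, 1`, then
`f(θ) = ∑_x e(θ·Ax)` has `∫_{torus} |f|² = 2^n` and `|f(θ)|² = ∏_j 4 cos²(π G_θ(j))`, `G_θ = A^T θ`.  So the set of
the `θ` with `|G_θ(j)| ≤ 1/8` for all `j` has volume `≤ (2/3.4)^n`.  If `B` is a real matrix such that `H = BA`
has `∑ H² ≤ D ≤ n/30000`, then the volume is at least `|det B| e^(-n/10)`.  So `|det B| ≥ e^(-2n/5)` is impossible.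

(B) For `B` one takes the functions `α^j P_t(j)`, `α` a root of `g` of multiplicity `> t`, `P_t` a
Chebyshev polynomial for `[0,n]` divided by `sqrt n`; the determinant is a product (Newton basis).

(C) Let `g = ∏_{b ∈ S} Φ_b^(μ_b)`, `S` a set of squarefree numbers.  The resultants of cyclotomic polynomials give
`-2 log |det B| ≤ EEd S μ n`.

(E) Choose `μ_b ≈ (m/b) w_b` with `w_b = 1 - lv(b)/J`, `lv(b) =` least `i` with `P⁻(b)^(2^i) > m`.  Then `EEd` is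
`∑_b φ(b) μ_b² [log(n/μ_b) + 5 - 2 log b - ∑_p log p / p] + ∑_{b,p} φ(b) log p /(b² p) (v_b - v_{bp})²`,
`v_b = b μ_b`, and Mertens' theorems give `EEd ≤ C m² (log m / J + 2^J (J + log(n/m²)))`.  With `2^J` about
`(log m)^(1/4)` this is `O(m² log m / loglog m)`.
-/

set_option autoImplicit false

open Polynomial Finset MeasureTheory

namespace Pool.Agent.H104.ML

/-- All coefficients are `0`, `1` or `-1`. -/
def Tern (L : ℤ[X]) : Prop := ∀ i, L.coeff i = 0 ∨ L.coeff i = 1 ∨ L.coeff i = -1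

/-! ### Part A -/

/-- JOB PAT.  Proof. `K ⊆` the box `piFinset (Icc (-n) n)`;
`card K ≤ e^(5n/100) ∑_{k ∈ K} e^(-5 ∑ k_j²) ≤ e^(n/20) (∑_{i=-n}^{n} e^(-5 i²))^n ≤ e^(n/20) (1 + 3 e^(-5))^n` and
`3 e^(-5) ≤ 1/20` (`Finset.prod_univ_sum`; `e^(-5 i²) ≤ e^(-5 |i|)`, geometric series). -/
def S_PAT : Prop := ∀ (n : ℕ) (K : Finset (Fin n → ℤ)), (∀ k ∈ K, 100 * ∑ j, k j ^ 2 ≤ (n : ℤ)) →
  (K.card : ℝ) ≤ Real.exp ((n : ℝ) / 10)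

/-- JOB SEC.  Proof. Second moment: over the cube `[-1,1]^D` the average of `(∑_s c_s H_s j)²` is
`(1/3) ∑_s H_s j ²`; so by Markov the complement of the set in the cube has measure `≤ (1/3) 2^D`, and
`(2/3) 2^D ≥ 1` for `D ≥ 1`.  `D = 0`: the volume is a Dirac measure (`∑ = 0 ≤ 0`). -/
def S_SEC : Prop := ∀ (D n : ℕ) (H : Fin D → Fin n → ℝ), ∑ j, ∑ s, H s j ^ 2 ≤ (D : ℝ) →
  1 ≤ volume {c : Fin D → ℝ | (∀ s, |c s| ≤ 1) ∧ ∑ j, (∑ s, c s * H s j) ^ 2 ≤ (D : ℝ)}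

/-- JOB CELL (uses PAT, SEC).  Proof. For `c` in the set of SEC let `k_j = round (8 ∑_s c_s H_s j)`; as
`|round x| ≤ 2 |x|`, `100 ∑ k_j² ≤ 100 * 256 * D ≤ n`.  By PAT the set of SEC is covered by at most `e^(n/10)` cells
(`k` fixed); one cell has volume `≥ e^(-n/10)`; take a point `c'` of it and `Ω = {c - c'}`. -/
def S_CELL : Prop := ∀ (D n : ℕ) (H : Fin D → Fin n → ℝ), 30000 * D ≤ n →
  ∑ j, ∑ s, H s j ^ 2 ≤ (D : ℝ) →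
  ∃ Ω : Set (Fin D → ℝ), MeasurableSet Ω ∧ (∀ c ∈ Ω, ∀ j, |∑ s, c s * H s j| ≤ 1 / 8) ∧
    ENNReal.ofReal (Real.exp (-((n : ℝ) / 10))) ≤ volume Ω

/-- JOB PARS.  Proof. `f(θ) = ∑_x exp(2πi ∑_i θ_i (A x)_i) = ∏_j (1 + exp(2πi (A^T θ)_j))`,
`|1 + e^{2πi u}|² = 4 cos²(πu) ≥ 2 + √2 ≥ 17/5` for `|u| ≤ 1/8`; and the integral of `|f|²` over the cube
`[-1/2,1/2]^D` is `2^n` by orthogonality (the vectors `A x` are different; product of one dimensional integrals). -/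
def S_PARS : Prop := ∀ (D n : ℕ) (A : Fin D → Fin n → ℤ),
  (∀ x x' : Fin n → Fin 2, (∀ i, ∑ j, A i j * (((x j : Fin 2) : ℕ) : ℤ) =
    ∑ j, A i j * (((x' j : Fin 2) : ℕ) : ℤ)) → x = x') →
  ∀ Ω : Set (Fin D → ℝ), MeasurableSet Ω →
  (∀ θ ∈ Ω, (∀ i, |θ i| ≤ 1 / 2) ∧ ∀ j, |∑ i, θ i * (A i j : ℝ)| ≤ 1 / 8) →
  (17 / 5 : ℝ) ^ n * (volume Ω).toReal ≤ 2 ^ n

/-- JOB VOL (assembly of CELL, PARS).  Proof. Suppose not, then `x ↦ A x` is injective.  `Ω` from CELL for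
`H s j = ∑_i B s i A i j`, `Ω' = {B^T c : c ∈ Ω}` has volume `|det B| vol Ω ≥ e^(-n/2)`
(`Measure.addHaar_image_linearMap`); for `θ = B^T c`, `∑_i θ_i A_ij = ∑_s c_s H_sj`, in particular
`θ_i` = this for `j = i`.  By PARS `(17/5)^n e^(-n/2) ≤ 2^n`, but `1.7 > e^(1/2)`. -/
def S_VOL : Prop := ∀ (D n : ℕ) (A : Fin D → Fin n → ℤ) (B : Matrix (Fin D) (Fin D) ℝ), 1 ≤ n →
  (∀ (i k : Fin D) (h : (k : ℕ) < n), A i ⟨k, h⟩ = if i = k then 1 else 0) → 30000 * D ≤ n →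
  ∑ j, ∑ s, (∑ i, B s i * (A i j : ℝ)) ^ 2 ≤ (D : ℝ) → Real.exp (-(2 / 5 * (n : ℝ))) ≤ |B.det| →
  ∃ x x' : Fin n → Fin 2, x ≠ x' ∧ ∀ i, ∑ j, A i j * (((x j : Fin 2) : ℕ) : ℤ) =
    ∑ j, A i j * (((x' j : Fin 2) : ℕ) : ℤ)

/-! ### Part B -/

/-- The coefficient of `X^i` in `X^j mod g`. -/
noncomputable def redc (g : ℤ[X]) (i j : ℕ) : ℤ := ((X ^ j : ℤ[X]) %ₘ g).coeff i

/-- JOB RED.  Proof. `X^k %ₘ g = X^k` for `k < natDegree g`; `p = ∑ (x j - x' j) X^j`, and `p %ₘ g` has the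
coefficients `∑_j redc g i j (x j - x' j) = 0` (`modByMonic` is linear). -/
def S_RED : Prop := ∀ (g : ℤ[X]) (n : ℕ), g.Monic →
  (∀ i k : ℕ, i < g.natDegree → k < g.natDegree → redc g i k = if i = k then 1 else 0) ∧
  ((∃ x x' : Fin n → Fin 2, x ≠ x' ∧ ∀ i : Fin g.natDegree,
    ∑ j : Fin n, redc g i j * (((x j : Fin 2) : ℕ) : ℤ) =
      ∑ j : Fin n, redc g i j * (((x' j : Fin 2) : ℕ) : ℤ)) →
    ∃ p : ℤ[X], p ≠ 0 ∧ Tern p ∧ p.natDegree < n ∧ g ∣ p)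

/-- JOB LEAD.  Proof. Write `f = (coeff t) * descPochhammer t + (combination of descPochhammer k, k < t)`
(or induct); `∑_j q_j α^j descPochhammer_k(j) = α^k q^{(k)}(α)`, and for `q = (X-α)^t h` the derivatives of order
`k < t` vanish at `α` and the `t`-th one is `t! h(α)`. -/
def S_LEAD : Prop := ∀ (t : ℕ) (α : ℂ) (h : ℂ[X]) (f : ℝ[X]), f.natDegree ≤ t →
  ((X - C α) ^ t * h).sum (fun j c => c * α ^ j * ((f.eval (j : ℝ) : ℝ) : ℂ)) =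
    (t.factorial : ℂ) * ((f.coeff t : ℝ) : ℂ) * α ^ t * h.eval α

open Classical in
/-- The number of earlier occurrences of `α s`. -/
noncomputable def tau {D : ℕ} (α : Fin D → ℂ) (s : Fin D) : ℕ :=
  (univ.filter (fun r => r < s ∧ α r = α s)).card

/-- The matrix of the functions `α^j P_t(j)`, `j < D`. -/
noncomputable def Vm {D : ℕ} (α : Fin D → ℂ) (P : ℕ → ℝ[X]) : Matrix (Fin D) (Fin D) ℂ :=
  fun s i => α s ^ (i : ℕ) * (((P (tau α s)).eval ((i : ℕ) : ℝ) : ℝ) : ℂ)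

open Classical in
/-- JOB DET (uses LEAD).  Proof. Let `N_s = ∏_{r<s} (X - C (α r))` (Newton basis), monic of degree `s`, and `W` the
matrix of the coefficients of `X^i` in `N_s` (triangular with diagonal `1`, determinant `1`).  `(V W)_{s s'}` is
`∑_j (N_{s'})_j α_s^j P_{τ s}(j)`, which is `0` for `s' > s` (`(X-α_s)^(τ+1) ∣ N_{s'}`, LEAD with `h(α_s) = 0`) and for
`s' = s` it is `τ! coeff_τ(P_τ) α_s^τ ∏_{r<s, α_r ≠ α_s} (α_s - α_r)`. -/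
def S_DET : Prop := ∀ (D : ℕ) (α : Fin D → ℂ) (P : ℕ → ℝ[X]), (∀ s, ‖α s‖ = 1) →
  (∀ t, (P t).natDegree ≤ t) →
  ‖(Vm α P).det‖ = ∏ s, (((tau α s).factorial : ℝ) * |(P (tau α s)).coeff (tau α s)| *
    ∏ r ∈ univ.filter (fun r => r < s ∧ α r ≠ α s), ‖α s - α r‖)

/-- JOB KILL (uses LEAD).  Proof. `X^j - ∑_{i<D} redc g i j X^i` is divisible by `g`, hence (over `ℂ`) by
`(X-α_s)^(τ s + 1)`; LEAD with `t = τ s`, `h(α_s) = 0`. (`natDegree g = D`.) -/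
def S_KILL : Prop := ∀ (g : ℤ[X]) (D : ℕ) (α : Fin D → ℂ) (P : ℕ → ℝ[X]), g.Monic →
  g.map (Int.castRingHom ℂ) = ∏ s, (X - C (α s)) → (∀ t, (P t).natDegree ≤ t) →
  ∀ (s : Fin D) (j : ℕ), α s ^ j * (((P (tau α s)).eval (j : ℝ) : ℝ) : ℂ) =
    ∑ i ∈ range D, (redc g i j : ℂ) * (α s ^ i * (((P (tau α s)).eval (i : ℝ) : ℝ) : ℂ))

/-- JOB REAL.  Proof. `M = re (V^H V)` is a real positive semidefinite matrix and equals `V^H V` by hypothesis;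
`Matrix.posSemidef_iff_eq_conjTranspose_mul_self` gives `B` with `M = B^T B`; `det M = |det V|²`. -/
def S_REAL : Prop := ∀ (D : ℕ) (V : Matrix (Fin D) (Fin D) ℂ),
  (∀ i i', (∑ s, (starRingEnd ℂ) (V s i) * V s i').im = 0) →
  ∃ B : Matrix (Fin D) (Fin D) ℝ, |B.det| = ‖V.det‖ ∧
    ∀ a : Fin D → ℝ, ∑ s, (∑ i, B s i * a i) ^ 2 = ∑ s, ‖∑ i, V s i * ((a i : ℝ) : ℂ)‖ ^ 2

open Classical in
/-- JOB GRP.  Proof. For fixed `z` the values `tau α s`, `α s = z`, are `0, 1, …, m(z) - 1`, `m(z)` the number of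
the `s` with `α s = z`.  Second part: symmetrise. -/
def S_GRP : Prop := ∀ (D : ℕ) (α : Fin D → ℂ),
  (∀ f : ℂ → ℕ → ℂ, ∑ s, f (α s) (tau α s) =
    ∑ z ∈ univ.image α, ∑ t ∈ range (univ.filter (fun s => α s = z)).card, f z t) ∧
  ∑ s, ∑ r ∈ univ.filter (fun r => r < s ∧ α r ≠ α s), Real.log ‖α s - α r‖ =
    (1 / 2) * ∑ z ∈ univ.image α, ∑ w ∈ (univ.image α).erase z,
      ((univ.filter (fun s => α s = z)).card : ℝ) * ((univ.filter (fun s => α s = w)).card : ℝ) *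
        Real.log ‖z - w‖

/-- JOB CONJ (uses GRP).  Proof. By GRP the sum is `∑_z ∑_{t<m(z)} conj(z)^i z^{i'} P_t(i) P_t(i')`, and the
multiplicities `m(z)` and `m(conj z)` are equal (`g` is real), so the sum equals its conjugate. -/
def S_CONJ : Prop := ∀ (g : ℤ[X]) (D : ℕ) (α : Fin D → ℂ) (P : ℕ → ℝ[X]),
  g.map (Int.castRingHom ℂ) = ∏ s, (X - C (α s)) →
  ∀ i i' : Fin D, (∑ s, (starRingEnd ℂ) (Vm α P s i) * Vm α P s i').im = 0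

/-- JOB CHEB.  Proof. `P_0 = 1/√n`, `P_t = T_t(2x/n - 1)/√n` (`Polynomial.Chebyshev.T ℝ t`), leading coefficient
`2^(t-1) (2/n)^t / √n`, and `|T_t| ≤ 1` on `[-1,1]`. -/
def S_CHEB : Prop := ∀ n : ℕ, 1 ≤ n → ∃ P : ℕ → ℝ[X], ∀ t, (P t).natDegree ≤ t ∧
  4 ^ t / (2 * (n : ℝ) ^ t * Real.sqrt n) ≤ (P t).coeff t ∧
  ∀ j : ℕ, j < n → |(P t).eval (j : ℝ)| ≤ 1 / Real.sqrt n

open Classical in
/-- JOB CORE (assembly of VOL, RED, DET, KILL, REAL, CONJ, CHEB). -/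
def S_CORE : Prop := ∀ (g : ℤ[X]) (D n : ℕ) (α : Fin D → ℂ), g.Monic →
  g.map (Int.castRingHom ℂ) = ∏ s, (X - C (α s)) → (∀ s, ‖α s‖ = 1) → 1 ≤ n → 30000 * D ≤ n →
  -(2 / 5 * (n : ℝ)) ≤ ∑ s, (Real.log ((tau α s).factorial : ℝ) + tau α s * Real.log 4 - Real.log 2
      - ((tau α s : ℝ) + 1 / 2) * Real.log n) +
    ∑ s, ∑ r ∈ univ.filter (fun r => r < s ∧ α r ≠ α s), Real.log ‖α s - α r‖ →
  ∃ p : ℤ[X], p ≠ 0 ∧ Tern p ∧ p.natDegree < n ∧ g ∣ p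

/-! ### Part C -/

/-- The absolute value of the resultant of two cyclotomic polynomials, or of the discriminant (`b = c`). -/
noncomputable def RR (b c : ℕ) : ℝ :=
  ∏ z ∈ primitiveRoots b ℂ, ∏ w ∈ (primitiveRoots c ℂ).erase z, ‖z - w‖

/-- JOB RES1.  Proof. For `b ≠ c` the product is the absolute value of the nonzero integer
`Res(Φ_b, Φ_c) = ∏_z Φ_c(z)` (norm of an algebraic integer, or `Polynomial.resultant`). -/
def S_RES1 : Prop := ∀ b c : ℕ, 1 ≤ b → 1 ≤ c → b ≠ c → 1 ≤ RR b c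

/-- JOB RES2.  Proof. For `d ∣ b`, `d ≠ b`: `∏_{z ∈ prim b} |z^d - 1| = ∏_{d' ∣ d} RR b d'`, and `z^d` runs
`φ(b)/φ(b/d)` times through the primitive `b/d`-th roots of unity, so it is `Φ_{b/d}(1)^(φ(b)/φ(b/d))`, where `Φ_e(1)`
is `e` for a prime `e`, `1` for squarefree `e > 1` not prime (`eval_one_cyclotomic_prime`,
`eval_one_cyclotomic_not_prime_pow`).  By induction on `d`, for squarefree `b`: `RR b d = 1` if `b/d` is not prime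
and `RR b d = p^(φ d)` if `b/d = p`.  For `d = b`: `∏_{z} ∏_{w^b=1, w≠z} |z-w| = b^(φ b)` (derivative of `X^b-1`). -/
def S_RES2 : Prop := (∀ b p : ℕ, Squarefree (b * p) → p.Prime →
    Real.log (RR b (b * p)) = (b.totient : ℝ) * Real.log p ∧
    Real.log (RR (b * p) b) = (b.totient : ℝ) * Real.log p) ∧
  ∀ b : ℕ, Squarefree b → Real.log (RR b b) = (b.totient : ℝ) * Real.log b -
    ∑ p ∈ b.primeFactors, ((b / p).totient : ℝ) * Real.log p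

/-- The product of cyclotomic polynomials. -/
noncomputable def gg (S : Finset ℕ) (μ : ℕ → ℕ) : ℤ[X] := ∏ b ∈ S, (cyclotomic b ℤ) ^ μ b

open Classical in
/-- JOB CYC (uses GRP).  Proof. The roots of `gg S μ` over `ℂ`: the primitive `b`-th roots of unity, `b ∈ S`, with
multiplicity `μ b`.  GRP (images restricted to `μ b > 0`; terms with `μ b = 0` are `0`). -/
def S_CYC : Prop := ∀ (S : Finset ℕ) (μ : ℕ → ℕ) (D : ℕ) (α : Fin D → ℂ), (∀ b ∈ S, 1 ≤ b) →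
  (gg S μ).map (Int.castRingHom ℂ) = ∏ s, (X - C (α s)) →
  (∀ s, ‖α s‖ = 1) ∧ D = ∑ b ∈ S, b.totient * μ b ∧
  (∀ f : ℕ → ℝ, ∑ s, f (tau α s) = ∑ b ∈ S, (b.totient : ℝ) * ∑ t ∈ range (μ b), f t) ∧
  ∑ s, ∑ r ∈ univ.filter (fun r => r < s ∧ α r ≠ α s), Real.log ‖α s - α r‖ =
    (1 / 2) * ∑ b ∈ S, ∑ c ∈ S, (μ b : ℝ) * (μ c : ℝ) * Real.log (RR b c)

/-- JOB PERZ.  Proof. First `2 ∑_{t<μ} log t! ≥ μ² (log μ - 3)` for `μ ≥ 1` by induction (`log μ! ≥ μ log μ - μ`,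
`log(1+1/μ) ≤ 1/μ`); then `4μ - 2μ² ≤ 2μ²` and `2 log 2 ≤ 2`.  (`μ = 0`: both sides are `0`.) -/
def S_PERZ : Prop := ∀ (n μ : ℕ), 1 ≤ n →
  -(1 / 2 * (μ : ℝ) ^ 2 * (Real.log n - Real.log μ + 5)) ≤
    ∑ t ∈ range μ, (Real.log (t.factorial : ℝ) + t * Real.log 4 - Real.log 2
      - ((t : ℝ) + 1 / 2) * Real.log n)

/-- The pairs `(b, c)` in `S` with `c/b` prime. -/
def edges (S : Finset ℕ) : Finset (ℕ × ℕ) := (S ×ˢ S).filter (fun x => x.1 ∣ x.2 ∧ (x.2 / x.1).Prime)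

/-- The energy. -/
noncomputable def EEd (S : Finset ℕ) (μ : ℕ → ℕ) (n : ℕ) : ℝ :=
  ∑ b ∈ S, (b.totient : ℝ) * (μ b : ℝ) ^ 2 * (Real.log n - Real.log (μ b) + 5)
  - ∑ b ∈ S, (μ b : ℝ) ^ 2 * ((b.totient : ℝ) * Real.log b -
      ∑ p ∈ b.primeFactors, ((b / p).totient : ℝ) * Real.log p)
  - 2 * ∑ x ∈ edges S, (μ x.1 : ℝ) * (μ x.2 : ℝ) * (x.1.totient : ℝ) * Real.log ((x.2 / x.1 : ℕ) : ℝ)

/-- JOB CORE2 (assembly of CORE, RES1, RES2, CYC, PERZ).  Proof. `g = gg S μ`, `D = natDegree`, `α` an enumeration of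
the roots over `ℂ`.  The double sum over `b, c` in CYC: the diagonal by RES2, the pairs with `c/b` or `b/c` prime by
RES2 (two orders, hence the factor `2`), all other pairs are `≥ 0` by RES1. -/
def S_CORE2 : Prop := ∀ (S : Finset ℕ) (μ : ℕ → ℕ) (n : ℕ), (∀ b ∈ S, Squarefree b) → 1 ≤ n →
  30000 * ∑ b ∈ S, b.totient * μ b ≤ n → EEd S μ n ≤ 4 / 5 * (n : ℝ) →
  ∃ p : ℤ[X], p ≠ 0 ∧ Tern p ∧ p.natDegree < n ∧ gg S μ ∣ p

/-! ### Part E -/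

/-- The level of a prime: least `i` with `m < p^(2^i)`. -/
noncomputable def lev (m p : ℕ) : ℕ := sInf {i | m < p ^ 2 ^ i}
/-- The level of a number: `0` for `b = 1`, otherwise that of the smallest prime factor. -/
noncomputable def lv (m b : ℕ) : ℕ := if b = 1 then 0 else lev m b.minFac

open Classical in
/-- The set `S`. -/
noncomputable def SS (m J : ℕ) : Finset ℕ := (Icc 1 m).filter (fun b => Squarefree b ∧ lv m b < J)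
/-- The multiplicities. -/
noncomputable def mu (m J b : ℕ) : ℕ := m * (J - lv m b) / (J * b)

/-- JOB MA.  `lev m p ≥ J` iff `p^(2^(J-1)) ≤ m`.  Mertens: `Pool.Agent.Erdos456.Mertens` (`mertens_log`) has
`|∑_{p ≤ N} log p / p - log N| ≤ C`. -/
def S_MA : Prop := ∃ C : ℝ, 0 ≤ C ∧ ∀ m J N : ℕ, 2 ≤ m → 1 ≤ J → 1 ≤ N →
  Real.log N - Real.log m / 2 ^ (J - 1) - C ≤
    ∑ p ∈ (Icc 1 N).filter (fun p => p.Prime ∧ m < p ^ 2 ^ (J - 1)), Real.log p / p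

/-- JOB MB.  Primes of level exactly `i ≥ 1`: `m^(1/2^i) < p ≤ m^(1/2^(i-1))`. -/
def S_MB : Prop := ∃ C : ℝ, 0 ≤ C ∧ ∀ m i : ℕ, 2 ≤ m → 1 ≤ i →
  ∑ p ∈ (Icc 1 m).filter (fun p => p.Prime ∧ p ^ 2 ^ (i - 1) ≤ m ∧ m < p ^ 2 ^ i), Real.log p / p ≤
    Real.log m / 2 ^ i + C

/-- JOB MC.  Proof. All prime factors `p` of `b` satisfy `m < p^(2^i)`, `p ≤ m`; the sum is
`≤ ∏_p (1 + 1/p) ≤ exp(∑ 1/p)`, and Mertens (`mertens_inv`) gives `∑ 1/p ≤ i log 2 + C`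
(`m^(1/2^i) ≥ e` since `2^i ≤ 4^J ≤ log m`). -/
def S_MC : Prop := ∃ C : ℝ, 0 ≤ C ∧ ∀ m J i : ℕ, 1 ≤ J → (4 : ℝ) ^ J ≤ Real.log m → i < J →
  ∑ b ∈ (SS m J).filter (fun b => lv m b = i), (b.totient : ℝ) / (b : ℝ) ^ 2 ≤ C * 2 ^ i

/-- JOB ID.  The algebraic identity; `S` is a set of squarefree numbers closed under division by primes.
Proof. `2 μ_b μ_c φ(b) log p = (φ(b) log p/(b² p)) (v_b² + v_c² - (v_b - v_c)²)`, `v_b = b μ_b`, `c = b p`; the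
`v_c²` terms for fixed `c`: `φ(c/p) p log p μ_c²` with `φ(c/p) p = φ(c) + φ(c/p)` and `∑_{p∣c} log p = log c`. -/
def S_ID : Prop := ∀ (S : Finset ℕ) (μ : ℕ → ℕ) (n : ℕ), (∀ b ∈ S, Squarefree b) →
  (∀ b ∈ S, ∀ p ∈ b.primeFactors, b / p ∈ S) →
  EEd S μ n = ∑ b ∈ S, (b.totient : ℝ) * (μ b : ℝ) ^ 2 * (Real.log n - Real.log (μ b) + 5 - 2 * Real.log b -
      ∑ x ∈ (edges S).filter (fun x => x.1 = b), Real.log ((x.2 / x.1 : ℕ) : ℝ) / ((x.2 / x.1 : ℕ) : ℝ)) +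
    ∑ x ∈ edges S, (x.1.totient : ℝ) * Real.log ((x.2 / x.1 : ℕ) : ℝ) /
      ((x.1 : ℝ) ^ 2 * ((x.2 / x.1 : ℕ) : ℝ)) * ((x.1 * μ x.1 : ℝ) - (x.2 * μ x.2 : ℝ)) ^ 2

/-- The weight `w_b = 1 - lv b / J`. -/
noncomputable def ww (m J b : ℕ) : ℝ := ((J : ℝ) - (lv m b : ℝ)) / J

/-- JOB FLO.  Proof. `mu` is the floor of `m w_b / b`; second part: a positive floor is at least half of the number,
and `w_b ≥ 1/J` (as `lv b < J`). -/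
def S_FLO : Prop := ∀ m J b : ℕ, 1 ≤ J → 1 ≤ b → lv m b ≤ J →
  ((m : ℝ) * ww m J b - b ≤ (b : ℝ) * mu m J b ∧ (b : ℝ) * mu m J b ≤ (m : ℝ) * ww m J b) ∧
  (lv m b < J → 1 ≤ mu m J b → (m : ℝ) / (2 * J * b) ≤ mu m J b)

/-- JOB EDA (uses MC).  Proof. With `c = b p`, `φ(b) log p/(b² p) c² = φ(b) p log p`, `p ≤ m/b`, and
`∑_{p ≤ x} p log p ≤ x ∑_{p ≤ x} log p ≤ 2 x²` (Chebyshev, `theta_le` in `Pool.Agent.Erdos456.Mertens`, or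
`primorial_le_4_pow`); so the sum is `≤ 2 m² ∑_{b ∈ SS} φ(b)/b² ≤ 2 m² ∑_{i<J} C 2^i`. -/
def S_EDA : Prop := ∃ C : ℝ, 0 ≤ C ∧ ∀ m J : ℕ, 1 ≤ J → (4 : ℝ) ^ J ≤ Real.log m →
  ∑ x ∈ edges (SS m J), (x.1.totient : ℝ) * Real.log ((x.2 / x.1 : ℕ) : ℝ) /
      ((x.1 : ℝ) ^ 2 * ((x.2 / x.1 : ℕ) : ℝ)) * (x.2 : ℝ) ^ 2 ≤ C * (m : ℝ) ^ 2 * 2 ^ J

/-- JOB EDB (uses MB, MC).  Proof. `c = b p`, `lv c = max (lv b) (lev p)`; so `w_b = w_c` unless `lev p > lv b`, and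
then `w_b - w_c = (lev p - lv b)/J`.  For `lv b = i`, by MB, `∑_p log p/p ((lev p - i)/J)² ≤
∑_{k<J} (k/J)² (log m/2^(i+k) + C) ≤ 6 log m/(2^i J²) + C J`; sum over `b` with MC. -/
def S_EDB : Prop := ∃ C : ℝ, 0 ≤ C ∧ ∀ m J : ℕ, 1 ≤ J → (4 : ℝ) ^ J ≤ Real.log m →
  ∑ x ∈ edges (SS m J), (x.1.totient : ℝ) * Real.log ((x.2 / x.1 : ℕ) : ℝ) /
      ((x.1 : ℝ) ^ 2 * ((x.2 / x.1 : ℕ) : ℝ)) * (ww m J x.1 - ww m J x.2) ^ 2 ≤
    C * (Real.log m / J + 2 ^ J * J)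

/-- JOB DGA (uses MA, FLO).  Proof. `μ_b ≥ m/(2 J b)` (FLO), so `-log μ_b ≤ log(2J) + log b - log m`.
`{p : bp ∈ SS}` = primes `p ≤ m/b`, `p ∤ b`, `m < p^(2^(J-1))` (that is `lev p < J`); by MA for `N = m/b` (floor, at least
half of the quotient) `∑ log p/p ≥ log m - log b - log m/2^(J-1) - C - ∑_{p ∣ b} log p/p`, the last sum is `≤ 1`, as `b`
has at most `2^(J-1)` prime factors, all `≥ exp(2^J)`.  Together, and `log(2J) ≤ 2J`. -/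
def S_DGA : Prop := ∃ C : ℝ, 0 ≤ C ∧ ∀ m J n b : ℕ, 1 ≤ J → (4 : ℝ) ^ J ≤ Real.log m → m ^ 2 ≤ n →
  b ∈ SS m J → 1 ≤ mu m J b →
  Real.log n - Real.log (mu m J b) + 5 - 2 * Real.log b - ∑ x ∈ (edges (SS m J)).filter (fun x => x.1 = b),
        Real.log ((x.2 / x.1 : ℕ) : ℝ) / ((x.2 / x.1 : ℕ) : ℝ) ≤
    Real.log (n / (m : ℝ) ^ 2) + Real.log m / 2 ^ (J - 1) + C * J

/-- JOB DGB (uses MC).  Proof. Group by the level: `≤ C ∑_{i<J} 2^i (1 - i/J)² = C ∑_{k=1}^{J} 2^(J-k) k²/J²` and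
`∑_k k²/2^k ≤ 6`. -/
def S_DGB : Prop := ∃ C : ℝ, 0 ≤ C ∧ ∀ m J : ℕ, 1 ≤ J → (4 : ℝ) ^ J ≤ Real.log m →
  ∑ b ∈ SS m J, (b.totient : ℝ) / (b : ℝ) ^ 2 * ww m J b ^ 2 ≤ C * 2 ^ J / (J : ℝ) ^ 2

/-- EDG (helper104; FLO, EDA, EDB). -/
def S_EDG : Prop := ∃ C : ℝ, 0 ≤ C ∧ ∀ m J : ℕ, 1 ≤ J → (4 : ℝ) ^ J ≤ Real.log m →
  ∑ x ∈ edges (SS m J), (x.1.totient : ℝ) * Real.log ((x.2 / x.1 : ℕ) : ℝ) /
      ((x.1 : ℝ) ^ 2 * ((x.2 / x.1 : ℕ) : ℝ)) * ((x.1 * mu m J x.1 : ℝ) - (x.2 * mu m J x.2 : ℝ)) ^ 2 ≤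
    C * (m : ℝ) ^ 2 * (Real.log m / J + 2 ^ J * J)

/-- DG (helper104; FLO, DGA, DGB). -/
def S_DG : Prop := ∃ C : ℝ, 0 ≤ C ∧ ∀ m J n : ℕ, 1 ≤ J → (4 : ℝ) ^ J ≤ Real.log m → m ^ 2 ≤ n →
  ∑ b ∈ SS m J, (b.totient : ℝ) * (mu m J b : ℝ) ^ 2 * (Real.log n - Real.log (mu m J b) + 5 -
      2 * Real.log b - ∑ x ∈ (edges (SS m J)).filter (fun x => x.1 = b),
        Real.log ((x.2 / x.1 : ℕ) : ℝ) / ((x.2 / x.1 : ℕ) : ℝ)) ≤
    C * (m : ℝ) ^ 2 * (Real.log m / J + 2 ^ J * (J + Real.log (n / (m : ℝ) ^ 2)))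

/-- JOB SSD.  The hypotheses of ID for `SS`, and the degree bound.  Proof. The smallest prime factor of `b/p` is at
least that of `b` (or `b/p = 1`), and `lev` is antitone; `∑ φ(b) μ_b ≤ ∑_{b ≤ m} b (m/b) ≤ m²`. -/
def S_SSD : Prop := ∀ m J : ℕ, 1 ≤ J → (∀ b ∈ SS m J, Squarefree b) ∧
  (∀ b ∈ SS m J, ∀ p ∈ b.primeFactors, b / p ∈ SS m J) ∧ ∑ b ∈ SS m J, b.totient * mu m J b ≤ m ^ 2 ∧
  (1 ≤ m → 1 ∈ SS m J ∧ mu m J 1 = m)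

/-- EST (helper104; ID, EDG, DG). -/
def S_EST : Prop := ∃ C : ℝ, 0 ≤ C ∧ ∀ m J n : ℕ, 1 ≤ J → (4 : ℝ) ^ J ≤ Real.log m → m ^ 2 ≤ n →
  EEd (SS m J) (mu m J) n ≤
    C * (m : ℝ) ^ 2 * (Real.log m / J + 2 ^ J * (J + Real.log (n / (m : ℝ) ^ 2)))

end Pool.Agent.H104.ML
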